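import Pool.Agent.GJ.F.Loc

/-!
# GJ/F-Cj: conjugation

`(P.mv h).D = h P.D h⁻¹`; conjugation by `h⁻¹` maps `H`, `P.mv h`, `χ` to `cj h H`, `P`, `cx h⁻¹ χ`.
-/

namespace Pool.Agent.GJ

open MulAction Pool.Agent.H73.DU Pool.Agent.H73.AL Pool.Agent.LD Pool.Agent.TS

variable {V T : Finset ℕ} {i : ℕ} {H : Subgroup GQ} {P Q : Pl} {χ χ' : GQ → ℤˣ} {h : GQ}

theorem mem_cjF {x : GQ} : x ∈ cj h H ↔ h * x * h⁻¹ ∈ H := by
  rw [mem_cj_iff]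
  constructor
  · rintro ⟨u, hu, rfl⟩
    have : h * (h⁻¹ * u * h) * h⁻¹ = u := by group
    rwa [this]
  · intro hx
    exact ⟨_, hx, by group⟩

theorem mem_D_mv {x : GQ} : x ∈ (P.mv h).D ↔ h⁻¹ * x * h ∈ P.D := by
  rw [mem_D, mem_D]
  constructor
  · rintro ⟨d, hd, rfl⟩
    refine ⟨d, hd, ?_⟩
    change h⁻¹ * ((h * P.g) * d * (h * P.g)⁻¹) * h = _
    group
  · rintro ⟨d, hd, hx⟩
    refine ⟨d, hd, ?_⟩
    change x = (h * P.g) * d * (h * P.g)⁻¹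
    have : x = h * (h⁻¹ * x * h) * h⁻¹ := by group
    rw [this, hx]
    group

theorem eqAt_cj : EqAt (cj h H) P (cx h⁻¹ χ) (cx h⁻¹ χ') ↔ EqAt H (P.mv h) χ χ' := by
  unfold EqAt cx
  constructor
  · intro h1 x hx hxH
    have h2 := h1 (h⁻¹ * x * h) (mem_D_mv.1 hx) (mem_cjF.2 (by
      have : h * (h⁻¹ * x * h) * h⁻¹ = x := by group
      rwa [this]))
    have h3 : h⁻¹⁻¹ * (h⁻¹ * x * h) * h⁻¹ = x := by group
    rwa [h3] at h2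
  · intro h1 x hx hxH
    have h2 := h1 (h * x * h⁻¹) (mem_D_mv.2 (by
      have : h⁻¹ * (h * x * h⁻¹) * h = x := by group
      rwa [this])) (mem_cjF.1 hxH)
    rwa [inv_inv]

theorem ntAt_cj : NtAt (cj h H) P (cx h⁻¹ χ) ↔ NtAt H (P.mv h) χ := by
  have h1 := eqAt_cj (H := H) (P := P) (h := h) (χ := χ) (χ' := 1)
  have h2 : cx h⁻¹ (1 : GQ → ℤˣ) = 1 := rfl
  rw [h2] at h1
  have h3 : ∀ (L : Subgroup GQ) (R : Pl) (ζ : GQ → ℤˣ), NtAt L R ζ ↔ ¬ EqAt L R ζ 1 := by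
    intro L R ζ
    unfold NtAt EqAt
    push Not
    rfl
  rw [h3, h3, h1]

private theorem cj_D_mv : cj h (P.mv h).D = P.D := by
  ext x
  rw [mem_cjF, mem_D_mv]
  have : h⁻¹ * (h * x * h⁻¹) * h = x := by group
  rw [this]

theorem crit_cj : Crit i (cj h H) P ↔ Crit i H (P.mv h) := by
  have h1 : (cj h H).relIndex P.D = H.relIndex (P.mv h).D := by
    rw [← cj_D_mv (h := h)]
    exact Subgroup.relIndex_map_map_of_injective _ _ (MulAut.conj h⁻¹).injective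
  unfold Crit
  rw [h1]

theorem peq_cj : PEq (cj h H) P Q ↔ PEq H (P.mv h) (Q.mv h) := by
  unfold PEq
  constructor
  · rintro ⟨h1, x, hx, d, hd, h2⟩
    refine ⟨h1, h * x * h⁻¹, mem_cjF.1 hx, d, hd, ?_⟩
    change h * Q.g = (h * x * h⁻¹) * (h * P.g) * d
    rw [h2]
    group
  · rintro ⟨h1, x, hx, d, hd, h2⟩
    refine ⟨h1, h⁻¹ * x * h, mem_cjF.2 (by
      have : h * (h⁻¹ * x * h) * h⁻¹ = x := by group
      rwa [this]), d, hd, ?_⟩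
    have h3 : h * Q.g = x * (h * P.g) * d := h2
    have h4 : Q.g = h⁻¹ * (h * Q.g) := by group
    rw [h4, h3]
    group

theorem open_cj (hH : IsOpen (H : Set GQ)) : IsOpen (cj h H : Set GQ) :=
  ((Ci.zero (V := ∅) (T := ∅) hH).cj h).1

theorem isChr_cj (hχ : IsChr H χ) : IsChr (cj h H) (cx h⁻¹ χ) := by
  have h1 : Mulp (cj h H) (cx h⁻¹ χ) := by
    intro a ha b hb
    have h2 := hχ.1 _ (mem_cjF.1 ha) _ (mem_cjF.1 hb)
    have h3 : h * a * h⁻¹ * (h * b * h⁻¹) = h * (a * b) * h⁻¹ := by group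
    rw [h3] at h2
    change χ (h⁻¹⁻¹ * (a * b) * h⁻¹) = χ (h⁻¹⁻¹ * a * h⁻¹) * χ (h⁻¹⁻¹ * b * h⁻¹)
    rwa [inv_inv]
  refine ⟨h1, ?_⟩
  have h2 : kr (cj h H) (cx h⁻¹ χ) = cj h (kr H χ) := by
    ext x
    rw [mem_kr h1, mem_cjF, mem_cjF, mem_kr hχ.1]
    change _ ∧ χ (h⁻¹⁻¹ * x * h⁻¹) = 1 ↔ _
    rw [inv_inv]
  rw [h2]
  exact open_cj hχ.2

theorem gt_cj (hχ : GT V T i H χ) : GT V T i (cj h H) (cx h⁻¹ χ) := by
  refine ⟨isChr_cj hχ.chr, fun R hR x hx hxH => ?_, fun R hR hc => ?_⟩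
  · have h1 : PinT T (R.mv h) := hR
    have h2 := hχ.ttr (R.mv h) h1 (h * x * h⁻¹) (mem_D_mv.2 (by
      have : h⁻¹ * (h * x * h⁻¹) * h = x := by group
      rwa [this])) (mem_cjF.1 hxH)
    change χ (h⁻¹⁻¹ * x * h⁻¹) = 1
    rwa [inv_inv]
  · have h1 : Pin V T (R.mv h) := hR
    exact ntAt_cj.2 (hχ.good (R.mv h) h1 (crit_cj.1 hc))

theorem pair_cj (hp : Pair V T i H (P.mv h) χ χ') :
    Pair V T i (cj h H) P (cx h⁻¹ χ) (cx h⁻¹ χ') := by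
  refine ⟨gt_cj hp.l, gt_cj hp.r, fun Q hQ hc hne => ?_⟩
  have h1 : Pin V T (Q.mv h) := hQ
  exact eqAt_cj.2 (hp.eq (Q.mv h) h1 (crit_cj.1 hc) fun h2 => hne (peq_cj.2 h2))

end Pool.Agent.GJ
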