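import Pool.Agent.GJ.FB
import Pool.Agent.TS.K.Odd

/-!
# GJ/F-Grp: the group lemma (paper F1)

`grpF` (GJ/FB) for the elements of odd order modulo `N`; the marks at `t` and at `t ^ 2 ^ a` are congruent modulo `2` (`pc_mod`).
-/

namespace Pool.Agent.GJ

open MulAction Pool.Agent.H73.DU Pool.Agent.H73.AL Pool.Agent.LD Pool.Agent.TS

variable {G : Type} [Group G]

/-- the values of a combination of marks at `t` and `t ^ 2 ^ a` are congruent modulo `2` -/
theorem rc_mod {C : Set (Subgroup G)} (hC : ∀ J ∈ C, Finite (G ⧸ J)) {y : Subgroup G → ℤ}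
    (hy : y ∈ RC C) (t : G) (a : ℕ) :
    (2 : ℤ) ∣ y (Subgroup.zpowers t) - y (Subgroup.zpowers (t ^ 2 ^ a)) := by
  unfold RC at hy
  induction hy using AddSubgroup.closure_induction with
  | mem f hf =>
    obtain ⟨K, hK, rfl⟩ := hf
    have := hC K hK
    exact pc_mod K t a
  | zero => simp
  | add x y _ _ hx hy =>
    rw [Pi.add_apply, Pi.add_apply]
    omega
  | neg x _ hx =>
    rw [Pi.neg_apply, Pi.neg_apply]
    omega

theorem grp_lem (N D : Subgroup G) [N.Normal] [N.FiniteIndex] (hND : N ≤ D) : D = ⊤ ∨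
    (∃ M : Subgroup G, M.index = 2 ∧ D ≤ M) ∨ ∃ x ∈ RC {J : Subgroup G | N ≤ J ∧ J ≠ ⊤},
      ∀ d ∈ D, (2 : ℤ) ∣ 1 - x (Subgroup.zpowers d) := by
  rcases grpF N D hND with h | ⟨K, h1, h2⟩ | ⟨y, hy, hy'⟩
  · exact Or.inl h
  · exact Or.inr (Or.inl ⟨K, h2, h1⟩)
  · refine Or.inr (Or.inr ⟨y, hy, fun d hd => ?_⟩)
    obtain ⟨a, q, hq, hq'⟩ := Nat.exists_eq_two_pow_mul_odd (n := N.index)
      Subgroup.FiniteIndex.index_ne_zero
    have h1 : (d ^ 2 ^ a) ^ q ∈ N := by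
      rw [← pow_mul, ← hq']
      exact Subgroup.pow_index_mem N d
    have h2 : ¬ 2 ∣ q := fun h => (Nat.not_even_iff_odd.2 hq) (even_iff_two_dvd.2 h)
    have h3 := hy' (d ^ 2 ^ a) (D.pow_mem hd _) q h2 h1
    have h4 := rc_mod (C := PN N) (fun J hJ => by
      have : J.FiniteIndex := Subgroup.finiteIndex_of_le hJ.1
      exact Subgroup.finite_quotient_of_finiteIndex) hy d a
    omega

end Pool.Agent.GJ
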