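import Pool.Agent.GJ.D.Plc

/-!
# GJ/F-Loc: the subgroup `H* = (P.D ⊓ H) ⊔ N`, places
-/

namespace Pool.Agent.GJ

open MulAction Pool.Agent.H73.DU Pool.Agent.H73.AL Pool.Agent.LD Pool.Agent.TS

variable {V T : Finset ℕ} {i : ℕ} {N H J K : Subgroup GQ} {P Q : Pl} {χ χ' η η' : GQ → ℤˣ}

theorem EqAt.mono (h : EqAt H P χ χ') (hJ : J ≤ H) : EqAt J P χ χ' :=
  fun x hx hxJ => h x hx (hJ hxJ)

/-- the same decomposition group -/
theorem EqAt.of (h : EqAt H P χ χ') (hK : P.D ⊓ K ≤ H) : EqAt K P χ χ' :=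
  fun x hx hxK => h x hx (hK ⟨hx, hxK⟩)

theorem NtAt.of (h : NtAt H P χ) (hK : P.D ⊓ H ≤ K) : NtAt K P χ := by
  obtain ⟨x, hx, hxH, h1⟩ := h
  exact ⟨x, hx, hK ⟨hx, hxH⟩, h1⟩

theorem crit_eq (h : P.D ⊓ H = P.D ⊓ K) : Crit i H P ↔ Crit i K P := by
  unfold Crit
  rw [← Subgroup.inf_relIndex_right H P.D, ← Subgroup.inf_relIndex_right K P.D,
    inf_comm H, inf_comm K, h]

theorem PEq.mono (h : PEq J P Q) (hJ : J ≤ H) : PEq H P Q := by
  obtain ⟨h1, x, hx, d, hd, h2⟩ := h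
  exact ⟨h1, x, hJ hx, d, hd, h2⟩

theorem mem_D {x : GQ} : x ∈ P.D ↔ ∃ d ∈ decomp ℚ_[P.p] (emb P.p), x = P.g * d * P.g⁻¹ := by
  unfold Pl.D
  rw [mem_cj_iff]
  constructor
  · rintro ⟨u, hu, h⟩
    exact ⟨u, hu, by rw [← h, inv_inv]⟩
  · rintro ⟨u, hu, h⟩
    exact ⟨u, hu, by rw [h, inv_inv]⟩

/-- elements of `h P.D` do not change the place -/
theorem peq_mul {x e : GQ} (hx : x ∈ H) (he : e ∈ P.D) (hp : P.p = Q.p) {b : GQ} {d : GQ}
    (hd : d ∈ decomp ℚ_[P.p] (emb P.p)) (h : Q.g = x * b * e * P.g * d) : PEq H (P.mv b) Q := by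
  obtain ⟨u, hu, rfl⟩ := mem_D.1 he
  refine ⟨hp, x, hx, u * d, Subgroup.mul_mem _ hu hd, ?_⟩
  rw [h]
  change _ = x * (b * P.g) * (u * d)
  group

/-- the subgroup `H*` -/
noncomputable def st (N H : Subgroup GQ) (P : Pl) : Subgroup GQ := (P.D ⊓ H) ⊔ N

theorem le_st : N ≤ st N H P := le_sup_right

theorem st_le (hNH : N ≤ H) : st N H P ≤ H := sup_le inf_le_right hNH

theorem dH_le_st : P.D ⊓ H ≤ st N H P := le_sup_left

theorem d_st (hNH : N ≤ H) : P.D ⊓ st N H P = P.D ⊓ H :=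
  le_antisymm (inf_le_inf_left _ (st_le hNH)) (le_inf inf_le_left dH_le_st)

theorem st_congr (h : P.D ⊓ H = P.D ⊓ K) : st N H P = st N K P := by
  unfold st
  rw [h]

theorem mem_st [hn : N.Normal] {x : GQ} :
    x ∈ st N H P ↔ ∃ a ∈ P.D ⊓ H, ∃ b ∈ N, a * b = x := by
  unfold st
  rw [← SetLike.mem_coe, Subgroup.mul_normal, Set.mem_mul]
  rfl

theorem st_inf [N.Normal] (hNJ : N ≤ J) (hJH : J ≤ H) : st N H P ⊓ J = st N J P := by
  ext x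
  rw [Subgroup.mem_inf, mem_st, mem_st]
  constructor
  · rintro ⟨⟨a, ha, b, hb, rfl⟩, hx⟩
    exact ⟨a, ⟨ha.1, (Subgroup.mul_mem_cancel_right J (hNJ hb)).1 hx⟩, b, hb, rfl⟩
  · rintro ⟨a, ha, b, hb, rfl⟩
    exact ⟨⟨a, ⟨ha.1, hJH ha.2⟩, b, hb, rfl⟩, J.mul_mem ha.2 (hNJ hb)⟩

theorem st_open (hN : IsOpen (N : Set GQ)) : IsOpen (st N H P : Set GQ) :=
  Subgroup.isOpen_mono le_st hN

/-- all places of `H*` equivalent to `P` are equivalent over `N` -/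
theorem peq_st [hn : N.Normal] (h : PEq (st N H P) P Q) (hK : N ≤ K) : PEq K P Q := by
  obtain ⟨h1, x, hx, d, hd, h2⟩ := h
  obtain ⟨a, ha, b, hb, rfl⟩ := mem_st.1 hx
  obtain ⟨u, hu, hau⟩ := mem_D.1 ha.1
  refine ⟨h1, a * b * a⁻¹, hK (hn.conj_mem b hb a), u * d, Subgroup.mul_mem _ hu hd, ?_⟩
  have h3 : a * P.g = P.g * u := by rw [hau]; group
  calc Q.g = (a * b * a⁻¹) * (a * P.g) * d := by rw [h2]; group
    _ = _ := by rw [h3]; group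

/-- restriction of a pair of `H*` -/
theorem Pair.st [N.Normal] (hN : IsOpen (N : Set GQ)) (hNH : N ≤ H) (hH : Ci V T i H)
    (h : Pair V T i (st N H P) P χ χ') (hNJ : N ≤ J) (hJH : J ≤ H) :
    Pair V T i (st N J P) P χ χ' := by
  have h1 : Ci V T i (Pool.Agent.GJ.st N H P) := hH.mono (st_le hNH) (st_open hN)
  have h2 : Pool.Agent.GJ.st N J P ≤ Pool.Agent.GJ.st N H P := by
    rw [← st_inf hNJ hJH]
    exact inf_le_left
  have h3 : IsOpen ((Pool.Agent.GJ.st N J P : Subgroup GQ) : Set GQ) := st_open hN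
  refine ⟨h.l.mono h1 h2 h3, h.r.mono h1 h2 h3, fun Q hQ hc hne => ?_⟩
  refine (h.eq Q hQ (hc.mono h2 h3) fun h4 => hne ?_).mono h2
  exact peq_st h4 le_st

theorem isChr_one (hH : IsOpen (H : Set GQ)) : IsChr H 1 := by
  have h1 : Mulp H (1 : GQ → ℤˣ) := fun a _ b _ => by simp
  refine ⟨h1, ?_⟩
  have h2 : kr H (1 : GQ → ℤˣ) = H := by
    ext x
    rw [mem_kr h1]
    simp
  rw [h2]
  exact hH

/-- the place is not critical for the kernel of a character nontrivial at the place -/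
theorem crit_kr (hH : Ci V T i H) {e : GQ → ℤˣ} (he : IsChr H e) (hQ : Pin V T Q)
    (hn : NtAt H Q e) : ¬ Crit i (kr H e) Q := by
  unfold Crit
  rw [not_not]
  have h1 : Mulp (H ⊓ Q.D) e := he.1.mono inf_le_left
  have h2 : ¬ Tr (H ⊓ Q.D) e := by
    obtain ⟨x, hx, hxH, h3⟩ := hn
    exact fun h => h3 (h x ⟨hxH, hx⟩)
  have h3 := kr_index h1 h2
  have h4 : kr (H ⊓ Q.D) e = kr H e ⊓ Q.D := by
    rw [kr_mono he.1 inf_le_left, inf_comm, ← inf_assoc, inf_eq_left.2 (kr_le H e)]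
  rw [h4] at h3
  have h5 := Subgroup.relIndex_mul_relIndex (kr H e ⊓ Q.D) (H ⊓ Q.D) Q.D
    (inf_le_inf_right _ (kr_le H e)) inf_le_right
  rw [h3, Subgroup.inf_relIndex_right, Subgroup.inf_relIndex_right] at h5
  rw [← h5, pow_succ, mul_comm]
  exact mul_dvd_mul_left 2 (hH.2 Q hQ)

end Pool.Agent.GJ
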