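import Pool.Agent.GJ.R.Ind

/-!
# GJ/F-Mac: restriction of marks
-/

namespace Pool.Agent.GJ

open MulAction Pool.Agent.H73.DU Pool.Agent.H73.AL Pool.Agent.LD Pool.Agent.TS

variable {G : Type} [Group G]

/-- the restriction of a function on the subgroups of `H` to the subgroups of `K ≤ H` -/
def rs {H K : Subgroup G} (hK : K ≤ H) (f : Subgroup H → ℤ) : Subgroup K → ℤ :=
  fun U => f (U.map (Subgroup.inclusion hK))

theorem rs_zp {H K : Subgroup G} (hK : K ≤ H) (f : Subgroup H → ℤ) (t : K) :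
    rs hK f (Subgroup.zpowers t) = f (Subgroup.zpowers ⟨(t : G), hK t.2⟩) := by
  unfold rs
  rw [MonoidHom.map_zpowers]
  rfl

private theorem mac_mem_cj {h x : G} {J : Subgroup G} : x ∈ cj h J ↔ h * x * h⁻¹ ∈ J := by
  rw [mem_cj_iff]
  constructor
  · rintro ⟨u, hu, rfl⟩
    have : h * (h⁻¹ * u * h) * h⁻¹ = u := by group
    rwa [this]
  · intro hx
    exact ⟨_, hx, by group⟩

private theorem mac_fin {H J : Subgroup G} [Finite (G ⧸ J)] : Finite (H ⧸ J.subgroupOf H) := by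
  have h1 : J.FiniteIndex := Subgroup.finiteIndex_of_finite_quotient
  exact Subgroup.finite_quotient_of_finiteIndex

/-- the Mackey formula, the representatives are in `H₁` -/
theorem mackey {H S J H₁ : Subgroup G} (hS : S ≤ H) (hH₁ : H₁ ≤ H)
    (hs : ∀ g ∈ H, ∃ a ∈ H₁, ∃ j ∈ J, g = a * j) [Finite (G ⧸ J)] :
    ∃ (ι : Type) (_ : Fintype ι) (h : ι → G), (∀ k, h k ∈ H₁) ∧
      (∀ k l, k ≠ l → ∀ j ∈ J, ∀ s ∈ S, h k ≠ j * h l * s) ∧
      (∀ g ∈ H, ∃ k, ∃ j ∈ J, ∃ s ∈ S, g = j * h k * s) ∧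
      rs hS (pc (J.subgroupOf H)) = ∑ k, pc ((cj (h k) J).subgroupOf S) := by
  classical
  have hfin : Finite (H ⧸ J.subgroupOf H) := mac_fin
  let act : MulAction S (H ⧸ J.subgroupOf H) :=
    MulAction.compHom (H ⧸ J.subgroupOf H) (Subgroup.inclusion hS)
  let _ : Fintype (orbitRel.Quotient S (H ⧸ J.subgroupOf H)) := Fintype.ofFinite _
  have hsm : ∀ (s : S) (x : H), s • ((x : H) : H ⧸ J.subgroupOf H) =
      ((Subgroup.inclusion hS s * x : H) : H ⧸ J.subgroupOf H) := fun s x => rfl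
  have hrep : ∀ x : H ⧸ J.subgroupOf H, ∃ (a : G) (ha : a ∈ H₁),
      (((⟨a, hH₁ ha⟩ : H) : H) : H ⧸ J.subgroupOf H) = x := by
    intro x
    induction x using QuotientGroup.induction_on with
    | H x =>
      obtain ⟨a, ha, j, hj, hx⟩ := hs x x.2
      refine ⟨a, ha, ?_⟩
      rw [QuotientGroup.eq, Subgroup.mem_subgroupOf]
      change a⁻¹ * (x : G) ∈ J
      rw [hx, inv_mul_cancel_left]
      exact hj
  choose a ha ha' using hrep
  refine ⟨orbitRel.Quotient S (H ⧸ J.subgroupOf H), inferInstance, fun ω => (a ω.out)⁻¹,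
    fun ω => H₁.inv_mem (ha _), ?_, ?_, ?_⟩
  · intro k l hkl j hj s hs' h
    apply hkl
    rw [← Quotient.out_eq' k, ← Quotient.out_eq' l, Quotient.eq'']
    refine ⟨(⟨s, hs'⟩ : S)⁻¹, ?_⟩
    change (⟨s, hs'⟩ : S)⁻¹ • l.out = k.out
    conv_lhs => rw [← ha' l.out]
    conv_rhs => rw [← ha' k.out]
    rw [hsm, QuotientGroup.eq, Subgroup.mem_subgroupOf]
    change (s⁻¹ * a l.out)⁻¹ * a k.out ∈ J
    have h0 : (a k.out)⁻¹ = j * (a l.out)⁻¹ * s := h
    have h1 : a k.out = s⁻¹ * a l.out * j⁻¹ := by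
      rw [← inv_inv (a k.out), h0]
      group
    rw [h1, inv_mul_cancel_left]
    exact J.inv_mem hj
  · intro g hg
    let y : H ⧸ J.subgroupOf H := (((⟨g, hg⟩ : H)⁻¹ : H) : H ⧸ J.subgroupOf H)
    have h1 : (Quotient.mk'' (Quotient.mk'' y : orbitRel.Quotient S (H ⧸ J.subgroupOf H)).out :
        orbitRel.Quotient S (H ⧸ J.subgroupOf H)) = Quotient.mk'' y := Quotient.out_eq' _
    rw [Quotient.eq''] at h1
    obtain ⟨s, hs'⟩ := h1
    refine ⟨Quotient.mk'' y, ?_⟩
    have h2 : s • y = (Quotient.mk'' y : orbitRel.Quotient S (H ⧸ J.subgroupOf H)).out := hs'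
    rw [← ha' (Quotient.mk'' y : orbitRel.Quotient S (H ⧸ J.subgroupOf H)).out, hsm,
      QuotientGroup.eq, Subgroup.mem_subgroupOf] at h2
    set b := a (Quotient.mk'' y : orbitRel.Quotient S (H ⧸ J.subgroupOf H)).out with hb
    have h3 : ((s : G) * g⁻¹)⁻¹ * b ∈ J := h2
    refine ⟨((s : G) * g⁻¹)⁻¹ * b, h3, (s : G), s.2, ?_⟩
    change g = ((s : G) * g⁻¹)⁻¹ * b * b⁻¹ * (s : G)
    group
  · have h1 : rs hS (pc (J.subgroupOf H)) = pch S (H ⧸ J.subgroupOf H) := by
      funext U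
      unfold rs pc pch
      congr 1
      refine Nat.card_congr (Equiv.subtypeEquivRight fun x => ?_)
      change (∀ u ∈ U.map (Subgroup.inclusion hS), u • x = x) ↔ ∀ u ∈ U, u • x = x
      constructor
      · intro h u hu
        exact h _ (Subgroup.mem_map_of_mem _ hu)
      · rintro h _ ⟨u, hu, rfl⟩
        exact h u hu
    rw [h1, pch_eq_sum]
    refine Finset.sum_congr rfl fun ω _ => ?_
    congr 1
    ext s
    rw [mem_stabilizer_iff, Subgroup.mem_subgroupOf, mac_mem_cj, inv_inv]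
    conv_lhs => rw [← ha' ω.out]
    rw [hsm, QuotientGroup.eq, Subgroup.mem_subgroupOf]
    change ((s : G) * a ω.out)⁻¹ * a ω.out ∈ J ↔ (a ω.out)⁻¹ * s * a ω.out ∈ J
    have h2 : (a ω.out)⁻¹ * (s : G) * a ω.out = (((s : G) * a ω.out)⁻¹ * a ω.out)⁻¹ := by group
    rw [h2, J.inv_mem_iff]

/-- one orbit -/
theorem mac_one {H K J : Subgroup G} (hK : K ≤ H)
    (hs : ∀ g ∈ H, ∃ a ∈ K, ∃ j ∈ J, g = a * j) [Finite (G ⧸ J)] :
    rs hK (pc (J.subgroupOf H)) = pc (J.subgroupOf K) := by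
  classical
  let act : MulAction K (H ⧸ J.subgroupOf H) :=
    MulAction.compHom (H ⧸ J.subgroupOf H) (Subgroup.inclusion hK)
  have h1 : rs hK (pc (J.subgroupOf H)) = pch K (H ⧸ J.subgroupOf H) := by
    funext U
    unfold rs pc pch
    congr 1
    refine Nat.card_congr (Equiv.subtypeEquivRight fun x => ?_)
    change (∀ u ∈ U.map (Subgroup.inclusion hK), u • x = x) ↔ ∀ u ∈ U, u • x = x
    constructor
    · intro h u hu
      exact h _ (Subgroup.mem_map_of_mem _ hu)
    · rintro h _ ⟨u, hu, rfl⟩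
      exact h u hu
  rw [h1]
  unfold pc
  symm
  let f : K ⧸ J.subgroupOf K → H ⧸ J.subgroupOf H :=
    Quotient.map' (Subgroup.inclusion hK) (by
      intro x y hxy
      rw [QuotientGroup.leftRel_apply, Subgroup.mem_subgroupOf] at hxy ⊢
      exact hxy)
  refine pch_congr (Equiv.ofBijective f ⟨?_, ?_⟩) ?_
  · intro x y hxy
    induction x using QuotientGroup.induction_on with
    | H x =>
    induction y using QuotientGroup.induction_on with
    | H y =>
      have h2 : ((Subgroup.inclusion hK x : H) : H ⧸ J.subgroupOf H) =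
        ((Subgroup.inclusion hK y : H) : H ⧸ J.subgroupOf H) := hxy
      rw [QuotientGroup.eq, Subgroup.mem_subgroupOf] at h2 ⊢
      exact h2
  · intro x
    induction x using QuotientGroup.induction_on with
    | H x =>
      obtain ⟨a, ha, j, hj, hx⟩ := hs x x.2
      refine ⟨((⟨a, ha⟩ : K) : K ⧸ J.subgroupOf K), ?_⟩
      change ((Subgroup.inclusion hK ⟨a, ha⟩ : H) : H ⧸ J.subgroupOf H) = _
      rw [QuotientGroup.eq, Subgroup.mem_subgroupOf]
      change a⁻¹ * (x : G) ∈ J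
      rw [hx, inv_mul_cancel_left]
      exact hj
  · intro g x
    induction x using QuotientGroup.induction_on with
    | H x => rfl

/-- restriction of the double covers, one orbit -/
theorem mac_tw_one {H K J : Subgroup G} (hK : K ≤ H)
    (hs : ∀ g ∈ H, ∃ a ∈ K, ∃ j ∈ J, g = a * j) [Finite (G ⧸ J)] [Finite (G ⧸ K)] {χ : G → ℤˣ}
    (hχ : Mulp K χ) :
    iH K (rs hK (pc (J.subgroupOf H)) * tw K χ) = pq (J ⊓ K) χ := by
  have h1 : Finite (K ⧸ J.subgroupOf K) := mac_fin
  rw [mac_one hK hs, iH_tw K _ hχ, Subgroup.subgroupOf_map_subtype]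

/-- restriction of the double covers -/
theorem mac_tw {H S J : Subgroup G} (hS : S ≤ H) [Finite (G ⧸ J)] [Finite (G ⧸ S)] {χ : G → ℤˣ}
    (hχ : Mulp S χ) {ι : Type} [Fintype ι] {h : ι → G}
    (hh : rs hS (pc (J.subgroupOf H)) = ∑ k, pc ((cj (h k) J).subgroupOf S)) :
    iH S (rs hS (pc (J.subgroupOf H)) * tw S χ) = ∑ k, pq (cj (h k) J ⊓ S) χ := by
  rw [hh, Finset.sum_mul, map_sum]
  refine Finset.sum_congr rfl fun k _ => ?_
  have h0 : Finite (G ⧸ cj (h k) J) := by
    have h1 : J.FiniteIndex := Subgroup.finiteIndex_of_finite_quotient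
    have h2 : (cj (h k) J).index = J.index := by
      unfold cj
      exact Subgroup.index_map_of_bijective (MulAut.conj (h k)⁻¹).bijective J
    have h3 : (cj (h k) J).FiniteIndex := ⟨by rw [h2]; exact h1.index_ne_zero⟩
    exact Subgroup.finite_quotient_of_finiteIndex
  have h1 : Finite (S ⧸ (cj (h k) J).subgroupOf S) := mac_fin
  rw [iH_tw S _ hχ, Subgroup.subgroupOf_map_subtype]

/-- conjugate elements have the same value -/
theorem rc_conj {C : Set (Subgroup G)} {y : Subgroup G → ℤ} (hy : y ∈ RC C) (a t : G) :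
    y (Subgroup.zpowers (a * t * a⁻¹)) = y (Subgroup.zpowers t) := by
  unfold RC at hy
  induction hy using AddSubgroup.closure_induction with
  | mem f hf =>
    obtain ⟨K, hK, rfl⟩ := hf
    unfold pc pch
    congr 1
    refine Nat.card_congr ((MulAction.toPerm a⁻¹).subtypeEquiv fun x => ?_)
    rw [fx_zpowers, fx_zpowers]
    change _ ↔ t • a⁻¹ • x = a⁻¹ • x
    rw [mul_smul, mul_smul]
    constructor
    · intro h
      have h1 : t • a⁻¹ • x = a⁻¹ • (a • t • a⁻¹ • x) := by rw [inv_smul_smul]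
      rw [h1, h]
    · intro h
      rw [h, smul_inv_smul]
  | zero => rfl
  | add x y _ _ hx hy =>
    rw [Pi.add_apply, Pi.add_apply, hx, hy]
  | neg x _ hx =>
    rw [Pi.neg_apply, Pi.neg_apply, hx]

/-- restrictions of combinations -/
theorem rs_mem {N H S : Subgroup G} [hn : N.Normal] [N.FiniteIndex] (hS : S ≤ H)
    {y : Subgroup H → ℤ} {C : Set (Subgroup H)} (hC : ∀ J ∈ C, N.subgroupOf H ≤ J) (hNH : N ≤ H)
    (hy : y ∈ RC C) : rs hS y ∈ RC {J : Subgroup S | N.subgroupOf S ≤ J} := by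
  unfold RC at hy
  induction hy using AddSubgroup.closure_induction with
  | mem f hf =>
    obtain ⟨J', hJ', rfl⟩ := hf
    have h1 : (J'.map H.subtype).subgroupOf H = J' := by
      rw [Subgroup.subgroupOf, Subgroup.comap_map_eq_self_of_injective H.subtype_injective]
    have h2 : N ≤ J'.map H.subtype := by
      intro x hx
      exact ⟨⟨x, hNH hx⟩, hC J' hJ' (Subgroup.mem_subgroupOf.2 hx), rfl⟩
    have h3 : (J'.map H.subtype).FiniteIndex := Subgroup.finiteIndex_of_le h2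
    have h4 : Finite (G ⧸ J'.map H.subtype) := Subgroup.finite_quotient_of_finiteIndex
    obtain ⟨ι, _, h, -, -, -, h5⟩ := mackey (H := H) (S := S) (J := J'.map H.subtype) (H₁ := H) hS
      le_rfl fun g hg => ⟨g, hg, 1, Subgroup.one_mem _, by rw [mul_one]⟩
    rw [h1] at h5
    rw [h5]
    refine AddSubgroup.sum_mem _ fun k _ => AddSubgroup.subset_closure ⟨_, ?_, rfl⟩
    intro x hx
    rw [Subgroup.mem_subgroupOf] at hx ⊢
    rw [mac_mem_cj]
    exact h2 (hn.conj_mem _ hx _)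
  | zero => exact AddSubgroup.zero_mem _
  | add x y _ _ hx hy => exact AddSubgroup.add_mem _ hx hy
  | neg x _ hx => exact AddSubgroup.neg_mem _ hx

end Pool.Agent.GJ
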