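import Pool.Agent.GJ.F.Iso
import Pool.Agent.GJ.F.Cj
import Pool.Agent.GJ.F.Mac
import Pool.Agent.GJ.D.D4

/-!
# GJ/F-One: the step for one subgroup `J` (paper F, case 3)
-/

namespace Pool.Agent.GJ

open MulAction Pool.Agent.H73.DU Pool.Agent.H73.AL Pool.Agent.LD Pool.Agent.TS

variable {V T : Finset ℕ}

theorem idx_le {N K : Subgroup GQ} (hN : IsOpen (N : Set GQ)) (h : N ≤ K) : K.index ≤ N.index := by
  have h1 : Finite (GQ ⧸ N) := fin_open hN
  have h2 : N.FiniteIndex := Subgroup.finiteIndex_of_finite_quotient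
  exact Nat.le_of_dvd (Nat.pos_of_ne_zero h2.index_ne_zero) (Subgroup.index_dvd_of_le h)

theorem le_cjN {N J : Subgroup GQ} [hn : N.Normal] (h : N ≤ J) (b : GQ) : N ≤ cj b J :=
  fun x hx => mem_cjF.2 (h (hn.conj_mem x hx b))

theorem cj_leH {H J : Subgroup GQ} (h : J ≤ H) {b : GQ} (hb : b ∈ H) : cj b J ≤ H := by
  intro x hx
  have h1 := H.mul_mem (H.mul_mem (H.inv_mem hb) (h (mem_cjF.1 hx))) hb
  have h2 : b⁻¹ * (b * x * b⁻¹) * b = x := by group
  rwa [h2] at h1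

theorem cj_kr {H J : Subgroup GQ} {e : GQ → ℤˣ} (he : Mulp H e) {b : GQ} (hb : b ∈ kr H e)
    (hJ : J ≤ H) : cj b (J ⊓ kr H e) = kr (cj b J) e := by
  have h1 : cj b J ≤ H := cj_leH hJ hb.1
  rw [kr_mono he h1]
  ext x
  rw [mem_cjF, Subgroup.mem_inf, Subgroup.mem_inf, mem_cjF]
  refine and_congr_right fun _ => ⟨fun h2 => ?_, fun h2 => ?_⟩
  · have h3 := (kr H e).mul_mem ((kr H e).mul_mem ((kr H e).inv_mem hb) h2) hb
    have h4 : b⁻¹ * (b * x * b⁻¹) * b = x := by group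
    rwa [h4] at h3
  · exact (kr H e).mul_mem ((kr H e).mul_mem hb h2) ((kr H e).inv_mem hb)

theorem kr_dich {H J : Subgroup GQ} {e : GQ → ℤˣ} (he : IsChr H e) (hJ : J ≤ H)
    (h : Tr H e ∨ ¬ Tr J e) : kr J e = J ∨ (kr J e).relIndex J = 2 := by
  rcases h with h | h
  · left
    ext x
    rw [mem_kr (he.1.mono hJ)]
    exact ⟨fun h1 => h1.1, fun h1 => ⟨h1, h x (hJ h1)⟩⟩
  · exact Or.inr (kr_index (he.1.mono hJ) h)

/-- the step at one place -/
theorem stepH (hTp : ∀ p ∈ T, p.Prime) (h2 : 2 ∈ T) {i n B : ℕ}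
    (hV : ∃ P : Pl, Pin V T P) {H : Subgroup GQ} (hH : Ci V T i H) {N : Subgroup GQ} [N.Normal]
    (hN : IsOpen (N : Set GQ)) (hNH : N ≤ H) {P : Pl} (hP : Pin V T P)
    {χ χ' ω ω' : GQ → ℤˣ} (hχ : GT V T i H χ) (hχ' : GT V T i H χ')
    (hω : Pair V T i (st N H P) P ω ω') (hχω : EqAt H P (χ * χ') (ω * ω'))
    {e : GQ → ℤˣ} (he : IsChr H e) (heP : EqAt H P e 1) (heN : Tr H e ∨ ¬ Tr N e)
    {η η' : GQ → ℤˣ} (hη : Pair V T i (kr H e) P η η') (hηχ : EqAt (kr H e) P (η * η') (χ * χ'))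
    (hn : n ∣ 2 * H.index) (hB : 32 * N.index ≤ B)
    {J : Subgroup GQ} (hNJ : N ≤ J) (hJH : J ≤ H) {h : GQ} (hh : h ∈ kr H e)
    (ih : ∀ α α' : GQ → ℤˣ, Pair V T i (cj h J) P α α' → EqAt (cj h J) P (α * α') (ω * ω') →
      (pq (cj h J) α - pq (cj h J) α') - (pq (st N (cj h J) P) ω - pq (st N (cj h J) P) ω') ∈
        ES V T (i + 1) n B) {θ θ' : GQ → ℤˣ} (hθ : Pair V T i (J ⊓ kr H e) (P.mv h) θ θ')
    (hθη : EqAt (J ⊓ kr H e) (P.mv h) (θ * θ') (η * η')) :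
    (pq (J ⊓ kr H e) θ - pq (J ⊓ kr H e) θ') -
      (pq (st N (cj h J) P) ω - pq (st N (cj h J) P) ω') ∈ ES V T (i + 1) n B := by
  have hJH' : cj h J ≤ H := cj_leH hJH hh.1
  have hNJ' : N ≤ cj h J := le_cjN hNJ h
  have hJo : IsOpen (cj h J : Set GQ) := Subgroup.isOpen_mono hNJ' hN
  have hJ2 : cj h (J ⊓ kr H e) = kr (cj h J) e := cj_kr he.1 hh hJH
  have he' : IsChr (cj h J) e := he.mono hJH' hJo
  have hCJ : Ci V T i (cj h J) := hH.mono hJH' hJo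
  have hC2 : Ci V T i (kr (cj h J) e) := hCJ.mono (kr_le _ _) he'.2
  have hα : Pair V T i (kr (cj h J) e) P (cx h⁻¹ θ) (cx h⁻¹ θ') := by
    rw [← hJ2]
    exact pair_cj hθ
  have hpq : ∀ ζ : GQ → ℤˣ, pq (J ⊓ kr H e) ζ = pq (kr (cj h J) e) (cx h⁻¹ ζ) := by
    intro ζ
    have h3 := pq_cx (J ⊓ kr H e) ζ h⁻¹
    rw [inv_inv, hJ2] at h3
    exact h3.symm
  have hdvd : n ∣ 2 * (cj h J).index :=
    hn.trans (mul_dvd_mul_left 2 (Subgroup.index_dvd_of_le hJH'))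
  have hdvd2 : n ∣ 2 * (kr (cj h J) e).index :=
    hdvd.trans (mul_dvd_mul_left 2 (Subgroup.index_dvd_of_le (kr_le _ _)))
  have hb1 : (cj h J).index ≤ N.index := idx_le hN hNJ'
  have hb2 : (kr (cj h J) e).index ≤ 2 * N.index := by
    by_cases hT : Tr (cj h J) e
    · rcases kr_dich (J := cj h J) he' le_rfl (Or.inl hT) with h3 | h3
      · rw [h3]; omega
      · have h4 := Subgroup.relIndex_mul_index (kr_le (cj h J) e)
        rw [h3] at h4
        omega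
    · rw [kr_index' he'.1 hT]
      omega
  -- the decomposition groups agree
  have hD : P.D ⊓ cj h J ≤ kr (cj h J) e := by
    rintro x ⟨hx, hxJ⟩
    rw [mem_kr he'.1]
    exact ⟨hxJ, heP x hx (hJH' hxJ)⟩
  have hD' : P.D ⊓ cj h J = P.D ⊓ kr (cj h J) e :=
    le_antisymm (le_inf inf_le_left hD) (inf_le_inf_left _ (kr_le _ _))
  have heq : EqAt (kr (cj h J) e) P (cx h⁻¹ θ * cx h⁻¹ θ') (ω * ω') := by
    intro x hx hxJ
    have hxH : x ∈ kr H e := by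
      rw [kr_mono he.1 hJH'] at hxJ
      exact hxJ.2
    have h3 : (θ * θ') (h * x * h⁻¹) = (η * η') (h * x * h⁻¹) := by
      refine hθη _ (mem_D_mv.2 ?_) ?_
      · have : h⁻¹ * (h * x * h⁻¹) * h = x := by group
        rwa [this]
      · rw [← hJ2] at hxJ
        exact mem_cjF.1 hxJ
    have hcon : ∀ ζ : GQ → ℤˣ, Mulp (kr H e) ζ → ζ (h * x * h⁻¹) = ζ x := by
      intro ζ hζ
      have h4 := hζ _ ((kr H e).mul_mem hh hxH) _ ((kr H e).inv_mem hh)
      have h5 := hζ _ hh _ hxH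
      have h6 := hζ _ hh _ ((kr H e).inv_mem hh)
      rw [mul_inv_cancel, hζ.one] at h6
      rw [h4, h5, mul_assoc, mul_comm (ζ x), ← mul_assoc, ← h6, one_mul]
    have h4 : (η * η') (h * x * h⁻¹) = (η * η') x := hcon _ (hη.l.chr.1.mul hη.r.chr.1)
    have h5 : (cx h⁻¹ θ * cx h⁻¹ θ') x = (θ * θ') (h * x * h⁻¹) := by
      change θ (h⁻¹⁻¹ * x * h⁻¹) * θ' (h⁻¹⁻¹ * x * h⁻¹) = θ (h * x * h⁻¹) * θ' (h * x * h⁻¹)
      rw [inv_inv]
    rw [h5, h3, h4, hηχ x hx hxH, hχω x hx hxH.1]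
  rw [hpq θ, hpq θ']
  by_cases hc : Crit i (cj h J) P
  · obtain ⟨α, α', hp, ha, ha', -⟩ := exists_pair (V := V) hTp h2 hCJ hP
      (hχ.mono hH hJH' hJo).chr (hχ'.mono hH hJH' hJo).chr
      ((hχ.mono hH hJH' hJo).good P hP hc) ((hχ'.mono hH hJH' hJo).good P hP hc)
    have hαω : EqAt (cj h J) P (α * α') (ω * ω') := (ha.mul ha').trans (hχω.mono hJH')
    have k1 := ih α α' hp hαω
    have k2 := d23 (V := V) (B := B) hTp h2 hV hCJ he'.2 (kr_le (cj h J) e)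
      (kr_dich he' le_rfl (by
        rcases heN with h3 | h3
        · exact Or.inl fun x hx => h3 x (hJH' hx)
        · exact Or.inr fun h4 => h3 fun x hx => h4 x (hNJ' hx))) hP hD hp hα
      ((hαω.mono (kr_le _ _)).trans heq.symm) hdvd (by omega)
    have k3 := AddSubgroup.sub_mem _ k1 k2
    have e1 : ∀ a b c d e f : Subgroup GQ → ℤ, (a - b) - (c - d) =
      ((e - f) - (c - d)) - ((e - f) - (a - b)) := fun a b c d e f => by abel
    rw [e1 _ _ _ _ (pq (cj h J) α) (pq (cj h J) α')]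
    exact k3
  · have h3 : ¬ Crit i (kr (cj h J) e) P := fun h4 => hc ((crit_eq hD').2 h4)
    have h4 : ¬ Crit i (st N (cj h J) P) P := fun h5 => hc ((crit_eq (d_st hNJ')).1 h5)
    have h5 : IsOpen (st N (cj h J) P : Set GQ) := st_open hN
    have h6 : st N (cj h J) P ≤ H := (st_le hNJ').trans hJH'
    refine AddSubgroup.sub_mem _ (d1P hTp h2 hV hC2 hα h3 hdvd2 (by omega))
      (d1P hTp h2 hV (hH.mono h6 h5) (hω.st hN hNH hH hNJ' hJH') h4 ?_ ?_)
    · exact hn.trans (mul_dvd_mul_left 2 (Subgroup.index_dvd_of_le h6))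
    · have h7 := idx_le hN (le_st (N := N) (H := cj h J) (P := P))
      omega

/-- the step for one subgroup `J` -/
theorem stepJ (hTp : ∀ p ∈ T, p.Prime) (h2 : 2 ∈ T) {i n B : ℕ}
    (hV : ∃ P : Pl, Pin V T P) {H : Subgroup GQ} (hH : Ci V T i H) {N : Subgroup GQ} [N.Normal]
    (hN : IsOpen (N : Set GQ)) (hNH : N ≤ H) {P : Pl} (hP : Pin V T P)
    {χ χ' ω ω' : GQ → ℤˣ} (hχ : GT V T i H χ) (hχ' : GT V T i H χ')
    (hω : Pair V T i (st N H P) P ω ω') (hχω : EqAt H P (χ * χ') (ω * ω'))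
    {e : GQ → ℤˣ} (he : IsChr H e) (heP : EqAt H P e 1) (heN : Tr H e ∨ ¬ Tr N e)
    {η η' : GQ → ℤˣ} (hη : Pair V T i (kr H e) P η η') (hηχ : EqAt (kr H e) P (η * η') (χ * χ'))
    (hn : n ∣ 2 * H.index) (hB : 32 * N.index ≤ B) [Finite (GQ ⧸ kr H e)]
    [Finite (GQ ⧸ st N H P)] {J : Subgroup GQ} (hNJ : N ≤ J) (hJH : J ≤ H)
    (ih : ∀ h ∈ H, ∀ α α' : GQ → ℤˣ, Pair V T i (cj h J) P α α' →
      EqAt (cj h J) P (α * α') (ω * ω') →
      (pq (cj h J) α - pq (cj h J) α') - (pq (st N (cj h J) P) ω - pq (st N (cj h J) P) ω') ∈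
        ES V T (i + 1) n B) :
    (iH (kr H e) (rs (kr_le H e) (pc (J.subgroupOf H)) * tw (kr H e) η) -
      iH (kr H e) (rs (kr_le H e) (pc (J.subgroupOf H)) * tw (kr H e) η')) -
      (iH (st N H P) (rs (st_le hNH) (pc (J.subgroupOf H)) * tw (st N H P) ω) -
      iH (st N H P) (rs (st_le hNH) (pc (J.subgroupOf H)) * tw (st N H P) ω')) ∈
        ES V T (i + 1) n B := by
  have hJo : IsOpen (J : Set GQ) := Subgroup.isOpen_mono hNJ hN
  have hfJ : Finite (GQ ⧸ J) := fin_open hJo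
  -- `H = kr H e * J`
  have hs : ∀ g ∈ H, ∃ a ∈ kr H e, ∃ j ∈ J, g = a * j := by
    intro g hg
    by_cases h1 : e g = 1
    · exact ⟨g, (mem_kr he.1).2 ⟨hg, h1⟩, 1, J.one_mem, by rw [mul_one]⟩
    · rcases heN with h3 | h3
      · exact absurd (h3 g hg) h1
      · unfold Tr at h3
        push Not at h3
        obtain ⟨x, hx, h4⟩ := h3
        have h5 : e (g * x) = 1 := by
          rw [he.1 g hg x (hNH hx), (Int.units_eq_one_or (e g)).resolve_left h1,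
            (Int.units_eq_one_or (e x)).resolve_left h4]
          rfl
        refine ⟨g * x, (mem_kr he.1).2 ⟨H.mul_mem hg (hNH hx), h5⟩, x⁻¹, J.inv_mem (hNJ hx), ?_⟩
        group
  obtain ⟨ι, _, h, hh, hne, hcov, hres⟩ := mackey (st_le (P := P) hNH) (kr_le H e) hs
  rw [mac_tw_one (kr_le H e) hs hη.l.chr.1, mac_tw_one (kr_le H e) hs hη.r.chr.1,
    mac_tw (st_le hNH) hω.l.chr.1 hres, mac_tw (st_le hNH) hω.r.chr.1 hres,
    ← Finset.sum_sub_distrib]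
  have hst : ∀ k, cj (h k) J ⊓ st N H P = st N (cj (h k) J) P := by
    intro k
    rw [inf_comm]
    exact st_inf (le_cjN hNJ (h k)) (cj_leH hJH (hh k).1)
  have hsum : (∑ k, (pq (cj (h k) J ⊓ st N H P) ω - pq (cj (h k) J ⊓ st N H P) ω')) =
      ∑ k, (pq (st N (cj (h k) J) P) ω - pq (st N (cj (h k) J) P) ω') :=
    Finset.sum_congr rfl fun k _ => by rw [hst k]
  rw [hsum]
  have hCk : Ci V T i (kr H e) := hH.mono (kr_le H e) he.2
  have hJ1 : IsOpen ((J ⊓ kr H e : Subgroup GQ) : Set GQ) := by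
    rw [Subgroup.coe_inf]
    exact hJo.inter he.2
  have hC1 : Ci V T i (J ⊓ kr H e) := hCk.mono inf_le_right hJ1
  have hb : (J ⊓ kr H e).index ≤ 2 * N.index := by
    have e1 : J ⊓ kr H e = kr J e := (kr_mono he.1 hJH).symm
    have hb1 := idx_le hN hNJ
    rw [e1]
    by_cases hT : Tr J e
    · rcases kr_dich (he.mono hJH hJo) le_rfl (Or.inl hT) with h3 | h3
      · rw [h3]; omega
      · have h4 := Subgroup.relIndex_mul_index (kr_le J e)
        rw [h3] at h4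
        omega
    · rw [kr_index' (he.1.mono hJH) hT]
      omega
  have hdvd : n ∣ 2 * (J ⊓ kr H e).index :=
    hn.trans (mul_dvd_mul_left 2 (Subgroup.index_dvd_of_le (inf_le_left.trans hJH)))
  refine chain (V := V) hTp h2 hV hC1 (hη.l.mono hCk inf_le_right hJ1)
    (hη.r.mono hCk inf_le_right hJ1) (fun k => P.mv (h k)) (fun k => hP) ?_ ?_ _ ?_ hdvd (by omega)
  · -- the places are not equivalent
    rintro k l hkl ⟨-, y, hy, d, hd, h3⟩
    have h4 : h l * P.g = y * (h k * P.g) * d := h3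
    have h5 : h l = y * h k * (P.g * d * P.g⁻¹) := by
      have : h l = (h l * P.g) * P.g⁻¹ := by group
      rw [this, h4]
      group
    refine hne l k (Ne.symm hkl) y hy.1 (P.g * d * P.g⁻¹) (dH_le_st ⟨mem_D.2 ⟨d, hd, rfl⟩, ?_⟩) h5
    have h6 : P.g * d * P.g⁻¹ = (y * h k)⁻¹ * h l := by
      rw [h5]
      group
    rw [h6]
    exact H.mul_mem (H.inv_mem (H.mul_mem (hJH hy.1) (hh k).1)) (hh l).1
  · -- the critical places
    intro Q hQ hcQ
    have h3 : Crit i (kr H e) Q := hcQ.mono inf_le_right hJ1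
    by_cases h4 : PEq (kr H e) P Q
    · left
      obtain ⟨hp, y, hy, d, hd, h5⟩ := h4
      obtain ⟨k, j, hj, s, hs', h6⟩ := hcov y hy.1
      obtain ⟨a, ha, b, hb', rfl⟩ := mem_st.1 hs'
      -- `y = (j * h k * a * b * a⁻¹ * (h k)⁻¹) * h k * a`
      have hn' : N.Normal := inferInstance
      have h7 : (h k * a) * b * (h k * a)⁻¹ ∈ N := hn'.conj_mem b hb' _
      refine ⟨k, peq_mul (H := J ⊓ kr H e)
        (x := j * ((h k * a) * b * (h k * a)⁻¹)) (e := a) (Subgroup.mem_inf.2 ⟨?_, ?_⟩) ha.1 hp hd ?_⟩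
      · exact J.mul_mem hj (hNJ h7)
      · have h8 : j * ((h k * a) * b * (h k * a)⁻¹) = y * a⁻¹ * (h k)⁻¹ := by
          rw [h6]
          group
        rw [h8]
        refine (kr H e).mul_mem ((kr H e).mul_mem hy ((kr H e).inv_mem ?_)) ((kr H e).inv_mem (hh k))
        exact (mem_kr he.1).2 ⟨ha.2, heP a ha.1 ha.2⟩
      · rw [h5, h6]
        group
    · right
      exact (hη.eq Q hQ h3 h4).mono inf_le_right
  · intro k θ θ' hθ hθη
    exact stepH hTp h2 hV hH hN hNH hP hχ hχ' hω hχω he heP heN hη hηχ hn hB hNJ hJH (hh k)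
      (ih (h k) (hh k).1) hθ hθη

end Pool.Agent.GJ
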